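import Mathlib

set_option autoImplicit false
open Cardinal Set Function Submodule

namespace Pool.Agent.H.MP_451483_gt

lemma ord {α : Type} (lv : α → ℤ) (μ : ℤ → Cardinal.{0}) (h : ∀ k, #{a | lv a = k} ≤ μ k)
    (hμ : ∀ a, ℵ₀ < μ (lv a)) :
    ∃ (_ : LinearOrder α) (_ : WellFoundedLT α), ∀ a, #(Iic a) < μ (lv a) := by
  have : ∀ k, ∃ g : {a | lv a = k} → Ordinal.{0}, Injective g ∧ ∀ a, g a < (μ k).ord := by
    intro k
    obtain ⟨g⟩ := (Cardinal.le_def {a | lv a = k} (μ k).ord.ToType).1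
      (by rw [mk_ord_toType]; exact h k)
    exact ⟨fun a => (Ordinal.ToType.mk.symm (g a)).1, Subtype.val_injective.comp
      (Ordinal.ToType.mk.symm.injective.comp g.injective), fun a => (Ordinal.ToType.mk.symm (g a)).2⟩
  choose g g1 g2 using this
  let f : α → Ordinal.{0} := fun a => g (lv a) ⟨a, rfl⟩
  have fi : ∀ a b, lv a = lv b → f a = f b → a = b := fun a b e e' => by
    have : ∀ k (h : lv a = k), f a = g k ⟨a, h⟩ := by rintro _ rfl; rfl
    exact congrArg Subtype.val (g1 _ ((this _ e).symm.trans e'))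
  let F : α → Ordinal.{0} ×ₗ ℕ := fun a => toLex (f a, Encodable.encode (lv a))
  have hF : Injective F := fun a b e => by
    have := Prod.ext_iff.1 (toLex.injective e)
    exact fi a b (Encodable.encode_injective this.2) this.1
  refine ⟨LinearOrder.lift' F hF, ⟨InvImage.wf F wellFounded_lt⟩, fun a => ?_⟩
  have c1 : (f a + 1).card < μ (lv a) :=
    lt_ord.1 ((isSuccLimit_ord (hμ a).le).add_one_lt (g2 _ _))
  show #{b | F b ≤ F a} < _
  refine (mk_le_mk_mul_of_mk_preimage_le (c := (f a + 1).card) (fun b => lv b.1) fun k => ?_).trans_lt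
    (mul_lt_of_lt (hμ a).le (by simpa using hμ a) c1)
  rw [← lift_le.{1}, ← mk_Iio_ordinal, ← lift_uzero #(Iio _)]
  have hf : ∀ b, F b ≤ F a → f b ∈ Iio (f a + 1) := fun b hb =>
    Order.lt_add_one_iff.2 (Prod.Lex.monotone_fst (F b) (F a) hb)
  apply lift_mk_le'.2
  exact ⟨⟨fun b => ⟨f b.1.1, hf _ b.1.2⟩, fun b c e =>
    Subtype.ext (Subtype.ext (fi _ _ (Eq.trans b.2 (Eq.symm c.2)) (congrArg Subtype.val e)))⟩⟩

variable {G : Type} [AddCommGroup G]

lemma mk_span (s : Set G) : #(span ℤ s) ≤ max #s ℵ₀ := by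
  rcases s.eq_empty_or_nonempty with rfl | ⟨x, hx⟩
  · simp
  have : Nonempty s := ⟨⟨x, hx⟩⟩
  rw [Finsupp.span_eq_range_linearCombination]
  exact mk_range_le.trans (by simp)

lemma hom_card {Q : Type} [AddCommGroup Q] (f : G →+ Q) (A : AddSubgroup G) (S : Set Q) :
    #{x | x ∈ A ∧ f x ∈ S} ≤ #S * #{x | x ∈ A ∧ f x = 0} := by
  refine mk_le_mk_mul_of_mk_preimage_le (fun x => ⟨f x.1, x.2.2⟩) fun s => ?_
  rcases isEmpty_or_nonempty ((fun x : {x | x ∈ A ∧ f x ∈ S} => (⟨f x.1, x.2.2⟩ : S)) ⁻¹' {s}) with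
    h | ⟨⟨x, hx⟩⟩
  · simp
  refine mk_le_of_injective (f := fun y => ⟨y.1.1 - x.1, A.sub_mem y.1.2.1 x.2.1, ?_⟩)
    fun a b e => Subtype.ext (Subtype.ext (sub_left_injective (congrArg Subtype.val e)))
  rw [map_sub, sub_eq_zero]
  exact congrArg Subtype.val (y.2.trans hx.symm)

lemma ess (A K : AddSubgroup G) (h : ∀ x ∈ A, x ≠ 0 → ∃ a : ℤ, a • x ∈ K ∧ a • x ≠ 0) :
    #A ≤ max #K ℵ₀ := by
  have key : ∀ n : ℕ, n ≠ 0 → #{x | x ∈ A ∧ n • x ∈ K} ≤ max #K ℵ₀ := by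
    intro n
    induction n using induction_on_primes with
    | zero => simp
    | one => exact fun _ => (mk_le_mk_of_subset fun x hx => by simpa using hx.2).trans (le_max_left _ _)
    | prime_mul p n hp ih =>
      intro hn
      refine le_trans (mk_le_mk_of_subset fun x hx => ?_)
        ((hom_card (nsmulAddMonoidHom p) A {x | x ∈ A ∧ n • x ∈ K}).trans ?_)
      · exact ⟨hx.1, A.nsmul_mem hx.1 p, by simpa [smul_smul, mul_comm] using hx.2⟩
      refine (mul_le_mul' (ih (right_ne_zero_of_mul hn)) ((mk_le_mk_of_subset fun x hx => ?_).trans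
        (le_max_left #K ℵ₀))).trans (mul_eq_self (le_max_right _ _)).le
      by_cases h0 : x = 0
      · exact h0 ▸ K.zero_mem
      obtain ⟨a, h1, h2⟩ := h x hx.1 h0
      have hx2 : (p : ℤ) • x = 0 := by simpa using hx.2
      obtain ⟨u, v, e⟩ := ((Nat.prime_iff_prime_int.1 hp).coprime_iff_not_dvd (n := a)).2
        fun ⟨c, e⟩ => h2 (by rw [e, mul_comm, mul_smul, hx2, smul_zero])
      have : x = v • a • x := by
        conv_lhs => rw [← one_smul ℤ x, ← e, add_smul, mul_smul, hx2, smul_zero, zero_add, mul_smul]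
      exact this ▸ K.zsmul_mem h1 v
  have : (A : Set G) ⊆ ⋃ n : ℕ, {x | x ∈ A ∧ (n + 1) • x ∈ K} := fun x hx => by
    by_cases h0 : x = 0
    · exact mem_iUnion.2 ⟨0, hx, by simp [h0]⟩
    obtain ⟨a, h1, h2⟩ := h x hx h0
    have : a ≠ 0 := by rintro rfl; simp at h2
    refine mem_iUnion.2 ⟨a.natAbs - 1, hx, ?_⟩
    rw [Nat.sub_add_cancel (by omega), ← natCast_zsmul]
    rcases Int.natAbs_eq a with e | e
    · exact e ▸ h1
    · rw [e, neg_smul] at h1; exact K.neg_mem_iff.1 h1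
  refine (mk_le_mk_of_subset this).trans ((mk_iUnion_le _).trans ?_)
  refine (mul_le_mul' (mk_nat.le.trans (le_max_right #K _))
    (ciSup_le' fun n => key _ n.succ_ne_zero)).trans (mul_eq_self (le_max_right _ _)).le

variable (G) in
def sz (k : ℤ) : Cardinal := #(range fun g : G => k • g)

lemma gen {μ : Cardinal} (hμ : ℵ₀ < μ) : ∃ n : ℕ, ∀ k : ℤ, sz G k < μ ↔ (n : ℤ) ∣ k := by
  have hm : ∀ c k : ℤ, sz G (c * k) ≤ sz G k := fun c k => mk_le_mk_of_subset (by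
    rintro _ ⟨g, rfl⟩; exact ⟨c • g, by simp [smul_smul, mul_comm]⟩)
  let I : Ideal ℤ :=
    { carrier := {k | sz G k < μ}
      zero_mem' := lt_of_le_of_lt (by simp [sz]) (one_lt_aleph0.trans hμ)
      add_mem' := fun {a b} ha hb => by
        refine lt_of_le_of_lt ?_ (mul_lt_of_lt hμ.le ha hb)
        refine le_trans (mk_le_mk_of_subset ?_) (mk_image2_le (f := (· + ·)))
        rintro _ ⟨g, rfl⟩
        exact ⟨_, ⟨g, rfl⟩, _, ⟨g, rfl⟩, (add_smul _ _ _).symm⟩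
      smul_mem' := fun c k hk => (hm c k).trans_lt hk }
  refine ⟨(IsPrincipal.generator I).natAbs, fun k => ?_⟩
  rw [Int.natAbs_dvd, ← IsPrincipal.mem_iff_generator_dvd]
  rfl

lemma step {μ : Cardinal} (hμ : ℵ₀ < μ) {n : ℕ} (hn : ∀ k : ℤ, sz G k < μ ↔ (n : ℤ) ∣ k)
    (K : AddSubgroup G) (hK : #K < μ) (m : ℕ) : ∃ (N : ℕ) (y : G), N • y = 0 ∧
      (∀ a : ℤ, a • y ∈ K → (N : ℤ) ∣ a) ∧ (n ≠ 0 ∧ N = n ∨ n = 0 ∧ (N = 0 ∨ m < N)) := by
  let A := (nsmulAddMonoidHom n : G →+ G).ker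
  obtain ⟨B, ⟨hA, hB⟩, hmax⟩ := zorn_le₀ {B : AddSubgroup G | B ≤ A ∧ ∀ x ∈ B, x ∈ K → x = 0}
    fun c hc ch => by
      rcases c.eq_empty_or_nonempty with rfl | ne
      · exact ⟨⊥, ⟨bot_le, by simp⟩, by simp⟩
      refine ⟨sSup c, ⟨sSup_le fun B hB => (hc hB).1, fun x hx => ?_⟩, fun _ h => le_sSup h⟩
      obtain ⟨B, hB, hx⟩ := (AddSubgroup.mem_sSup_of_directedOn ne ch.directedOn).1 hx
      exact (hc hB).2 x hx
  let q := QuotientAddGroup.mk' B
  have h1 : #(A.map q) < μ := by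
    refine (ess _ (K.map q) ?_).trans_lt (max_lt (mk_image_le.trans_lt hK) hμ)
    rintro _ ⟨x, hx, rfl⟩ h0
    by_contra hc
    push Not at hc
    refine h0 ((QuotientAddGroup.eq_zero_iff x).2 (hmax (y := B ⊔ AddSubgroup.zmultiples x)
      ⟨sup_le hA (AddSubgroup.zmultiples_le_of_mem hx), fun z hz hk => ?_⟩ le_sup_left
      (AddSubgroup.mem_sup_right (AddSubgroup.mem_zmultiples x))))
    obtain ⟨b, hb, _, ⟨a, rfl⟩, rfl⟩ := AddSubgroup.mem_sup.1 hz
    have e : q (b + a • x) = a • q x := by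
      rw [map_add, map_zsmul, show q b = 0 from (QuotientAddGroup.eq_zero_iff b).2 hb, zero_add]
    exact hB _ ((QuotientAddGroup.eq_zero_iff _).1 (e.trans (hc a ⟨_, hk, e⟩))) hk
  have h2 : #(G ⧸ B) < μ := by
    have := hom_card (QuotientAddGroup.lift B (nsmulAddMonoidHom n) hA) ⊤
      (range fun g : G => (n : ℤ) • g)
    refine lt_of_le_of_lt (le_trans ?_ this) (mul_lt_of_lt hμ.le ((hn n).2 dvd_rfl)
      ((mk_le_mk_of_subset ?_).trans_lt h1))
    · rw [← mk_univ]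
      refine mk_le_mk_of_subset ?_
      rintro ⟨g⟩ -
      exact ⟨trivial, g, natCast_zsmul _ _⟩
    · rintro ⟨g⟩ hg
      exact ⟨g, hg.2, rfl⟩
  have h3 : ∀ c : ℕ, (∀ x ∈ B, c • x = 0) → n ∣ c := fun c hc => by
    refine Int.natCast_dvd_natCast.1 ((hn c).1 (lt_of_le_of_lt ?_ h2))
    refine le_trans (mk_le_mk_of_subset ?_)
      (mk_range_le (f := QuotientAddGroup.lift B (nsmulAddMonoidHom c) hc))
    rintro _ ⟨g, rfl⟩
    exact ⟨g, (natCast_zsmul _ _).symm⟩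
  have h4 : ∀ y ∈ B, ∀ a : ℤ, a • y ∈ K → (addOrderOf y : ℤ) ∣ a := fun y hy a ha =>
    addOrderOf_dvd_iff_zsmul_eq_zero.2 (hB _ (B.zsmul_mem hy a) ha)
  rcases eq_or_ne n 0 with rfl | h0
  · have : ¬ ∀ x ∈ B, m.factorial • x = 0 := fun h => m.factorial_ne_zero (zero_dvd_iff.1 (h3 _ h))
    push Not at this
    obtain ⟨y, hy, h⟩ := this
    refine ⟨_, y, addOrderOf_nsmul_eq_zero y, h4 y hy, Or.inr ⟨rfl, ?_⟩⟩
    by_contra hc
    push Not at hc
    exact h (addOrderOf_dvd_iff_nsmul_eq_zero.1 (Nat.dvd_factorial (Nat.pos_of_ne_zero hc.1) hc.2))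
  · have hn' : ∀ g : B, n • g = 0 := fun g => Subtype.ext (hA g.2)
    obtain ⟨y, hy⟩ := AddMonoid.exists_addOrderOf_eq_exponent (G := B) ⟨n, Nat.pos_of_ne_zero h0, hn'⟩
    refine ⟨_, y, addOrderOf_nsmul_eq_zero _, h4 y y.2, Or.inl ⟨h0, ?_⟩⟩
    rw [AddSubgroup.addOrderOf_coe, hy]
    exact Nat.dvd_antisymm (AddMonoid.exponent_dvd_of_forall_nsmul_eq_zero hn')
      (h3 _ fun x hx => congrArg Subtype.val (AddMonoid.exponent_nsmul_eq_zero (⟨x, hx⟩ : B)))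

end Pool.Agent.H.MP_451483_gt
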