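import Pool.Agent.H.MP_451483_gt.A

set_option autoImplicit false
open Cardinal Set Function Submodule

namespace Pool.Agent.H.MP_451483_gt

lemma rec_choice {α β : Type} [LinearOrder α] [WellFoundedLT α]
    (P : (a : α) → (Iio a → β) → β → Prop) (h : ∀ a prev, ∃ b, P a prev b) :
    ∃ d : α → β, ∀ a, P a (fun x => d x) (d a) := by
  choose F hF using h
  let d : α → β := (wellFounded_lt (α := α)).fix fun a prev => F a fun x => prev x.1 x.2
  have hd : ∀ a, d a = F a fun x => d x := fun a => WellFounded.fix_eq _ _ a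
  exact ⟨d, fun a => by rw [hd a]; exact hF a _⟩

variable {G : Type} [AddCommGroup G]

lemma tasks (H : ∀ k : ℤ, (∀ g : G, k • g = 0) ∨ 𝔠 ≤ sz G k) :
    ∃ (n : ℤ → ℕ) (L : ℤ → Set G), (∀ k j, sz G j < max 𝔠 (sz G k) ↔ (n k : ℤ) ∣ j) ∧
      (∀ k, #(L k) ≤ max 𝔠 (sz G k)) ∧ (∀ k, ∀ g ∈ L k, n k • g = 0) ∧
      ∀ g, g ∈ span ℤ (⋃ k, L k) := by
  classical
  have hμ : ∀ k, ℵ₀ < max 𝔠 (sz G k) := fun k => aleph0_lt_continuum.trans_le (le_max_left _ _)
  choose n hn using fun k => gen (G := G) (hμ k)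
  choose m hm using fun k => gen (G := G) ((hμ k).trans (Order.lt_succ _))
  let f : ∀ k, range (fun g : G => (m k : ℤ) • g) → G := fun k z =>
    if h : ∃ g : G, n k • g = 0 ∧ m k • g = z then h.choose else 0
  have key : ∀ (a : ℕ) (ν : Cardinal), 𝔠 ≤ ν → (∀ j, sz G j < ν ↔ (a : ℤ) ∣ j) →
      ∀ g : G, a • g = 0 → g ∈ span ℤ (⋃ k, range (f k)) := by
    intro a
    induction a using (wellFounded_dvdNotUnit (α := ℕ)).induction with
    | _ a ih =>
    intro ν hν ha g hg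
    by_cases h1 : (a : ℤ) ∣ 1
    · obtain rfl : a = 1 := by simpa using Int.eq_one_of_dvd_one (by simp) h1
      rw [one_smul] at hg
      exact hg ▸ zero_mem _
    obtain ⟨k, hk, hmin⟩ := (InvImage.wf (sz G) wellFounded_lt).has_min {k | ¬ (a : ℤ) ∣ k} ⟨1, h1⟩
    have h2 : ν ≤ sz G k := not_lt.1 fun h => hk ((ha k).1 h)
    have h3 : max 𝔠 (sz G k) = sz G k := max_eq_right (hν.trans h2)
    have h4 : sz G a < sz G k := ((ha a).2 dvd_rfl).trans_le h2
    have h5 : n k = a := Nat.dvd_antisymm (Int.natCast_dvd_natCast.1 ((hn k a).1 (h3.symm ▸ h4)))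
      (Int.natCast_dvd_natCast.1 (not_not.1 fun h => hmin _ h (((hn k _).2 dvd_rfl).trans_eq h3)))
    have h6 : (m k : ℤ) ∣ k := (hm k k).1 (h3.symm ▸ Order.lt_succ _)
    have h7 : ∃ g' : G, n k • g' = 0 ∧
        m k • g' = (⟨_, g, rfl⟩ : range (fun g : G => (m k : ℤ) • g)) :=
      ⟨g, h5 ▸ hg, (natCast_zsmul _ _).symm⟩
    have := ih (m k) (dvdNotUnit_of_dvd_of_not_dvd (Int.natCast_dvd_natCast.1 ((hm k a).1
      (h3.symm ▸ h4.trans (Order.lt_succ _)))) fun h => hk ((Int.natCast_dvd_natCast.2 h).trans h6))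
      _ ((le_max_left _ _).trans (Order.le_succ _)) (hm k) (g - h7.choose)
      (by rw [smul_sub, h7.choose_spec.2, sub_eq_zero]; exact (natCast_zsmul _ _).symm)
    rw [← sub_add_cancel g h7.choose]
    exact add_mem this (subset_span (mem_iUnion.2 ⟨k, ⟨_, g, rfl⟩, dif_pos h7⟩))
  refine ⟨n, fun k => range (f k), hn,
    fun k => mk_range_le.trans (Order.lt_succ_iff.1 ((hm k _).2 dvd_rfl)), ?_, fun g => ?_⟩
  · rintro k _ ⟨z, rfl⟩
    simp only [f]
    split_ifs with h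
    · exact h.choose_spec.1
    · exact smul_zero _
  · obtain ⟨a, ha⟩ := gen (G := G) aleph0_lt_continuum
    exact key a _ le_rfl ha g (by
      simpa using (H a).resolve_right (not_le.2 ((ha a).2 dvd_rfl)) g)

lemma indep {E : Type} [LinearOrder E] {y : E → G} {N : E → ℕ} (h0 : ∀ e, N e • y e = 0)
    (h : ∀ e (a : ℤ), a • y e ∈ span ℤ (y '' Iio e) → (N e : ℤ) ∣ a) (l : E →₀ ℤ) :
    Finsupp.linearCombination ℤ y l = 0 → ∀ e, (N e : ℤ) ∣ l e := by
  induction l using Finsupp.induction_on_max with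
  | zero => simp
  | single_add a b f hf hb ih =>
    intro h1 e
    rw [map_add, Finsupp.linearCombination_single, add_eq_zero_iff_eq_neg] at h1
    have h2 := h a b (h1 ▸ neg_mem ((Finsupp.mem_span_image_iff_linearCombination ℤ).2
      ⟨f, hf, rfl⟩))
    have h3 : b • y a = 0 := by
      obtain ⟨c, rfl⟩ := h2
      rw [mul_comm, mul_smul, natCast_zsmul, h0, smul_zero]
    rw [h3, eq_comm, neg_eq_zero] at h1
    rw [Finsupp.add_apply]
    refine dvd_add ?_ (ih h1 e)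
    rcases eq_or_ne a e with rfl | ne
    · simpa using h2
    · simp [ne]

abbrev J := ℕ × Ioc (0 : ℝ) 1

theorem design (H : ∀ k : ℤ, (∀ g : G, k • g = 0) ∨ 𝔠 ≤ sz G k) :
    ∃ (T : Type) (_ : LinearOrder T) (_ : WellFoundedLT T) (t : T → G) (b : T → J → G)
      (M : T → ℕ → ℕ), (∀ g, g ∈ span ℤ (range t)) ∧ (∀ τ j, M τ j.1 • b τ j = 0) ∧
      (∀ τ, ∀ x ∈ span ℤ (t '' Iic τ ∪ ⋃ σ < τ, range (b σ)), ∀ a : J →₀ ℤ,
        x + Finsupp.linearCombination ℤ (b τ) a = 0 → ∀ j, (M τ j.1 : ℤ) ∣ a j) ∧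
      ∀ τ, (∃ N, N ≠ 0 ∧ N • t τ = 0 ∧ ∀ n, M τ n = N) ∨ ∀ n, M τ n = 0 ∨ n < M τ n := by
  classical
  obtain ⟨n, L, hn, hL, hnL, hgen⟩ := tasks H
  let μ := fun k => max 𝔠 (sz G k)
  have hμ : ∀ k, ℵ₀ < μ k := fun k => aleph0_lt_continuum.trans_le (le_max_left _ _)
  let T := {p : ℤ × G // p.2 ∈ L p.1}
  have hT : ∀ k, #{τ : T | τ.1.1 = k} ≤ μ k := fun k => le_trans (mk_le_of_injective
    (f := fun τ => (⟨τ.1.1.2, (congrArg L τ.2).subset τ.1.2⟩ : L k)) fun a b e => Subtype.ext (Subtype.ext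
      (Prod.ext (Eq.trans a.2 (Eq.symm b.2)) (congrArg Subtype.val e)))) (hL k)
  obtain ⟨i1, i2, hp⟩ := ord (fun τ : T => τ.1.1) μ hT fun _ => hμ _
  choose O hO using fun k => (le_mk_iff_exists_set (α := ℝ ⊕ G) (c := μ k)).1
    (max_le (by simp [mk_real]) (mk_range_le.trans (by simp)))
  let E := {p : T × ℕ × (ℝ ⊕ G) // p.2.2 ∈ O p.1.1.1}
  obtain ⟨j1, j2, hq⟩ := ord (fun e : E => e.1.1.1.1) μ (fun k => by
    refine (mk_le_of_injective (β := {τ : T | τ.1.1 = k} × ℕ × O k)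
      (f := fun e => (⟨e.1.1.1, e.2⟩, e.1.1.2.1, ⟨e.1.1.2.2, (congrArg O e.2).subset e.1.2⟩)) fun a b e => ?_).trans ?_
    · simp only [Prod.mk.injEq, Subtype.mk.injEq] at e
      exact Subtype.ext (Subtype.ext (Prod.ext e.1 (Prod.ext e.2.1 e.2.2)))
    · simp only [mk_prod, lift_id, hO, mk_nat]
      rw [aleph0_mul_eq (hμ k).le]
      exact (mul_le_mul' (hT k) le_rfl).trans (mul_eq_self (hμ k).le).le) fun _ => hμ _
  obtain ⟨d, hd⟩ := rec_choice (α := E) (β := ℕ × G) (fun e prev p => p.1 • p.2 = 0 ∧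
    (∀ a : ℤ, a • p.2 ∈ span ℤ (range fun x => (prev x).2) → (p.1 : ℤ) ∣ a) ∧
    (n e.1.1.1.1 ≠ 0 ∧ p.1 = n e.1.1.1.1 ∨ n e.1.1.1.1 = 0 ∧ (p.1 = 0 ∨ e.1.2.1 < p.1)))
    fun e prev => by
      obtain ⟨N, y, h⟩ := step (hμ _) (hn e.1.1.1.1)
        (span ℤ (range fun x => (prev x).2)).toAddSubgroup ((mk_span _).trans_lt (max_lt
          (mk_range_le.trans_lt ((mk_le_mk_of_subset Iio_subset_Iic_self).trans_lt (hq e))) (hμ _)))
        e.1.2.1
      exact ⟨(N, y), h⟩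
  let y : E → G := fun e => (d e).2
  have ind := indep (y := y) (N := fun e => (d e).1) (fun e => (hd e).1) fun e a ha =>
    (hd e).2.1 a (by rwa [image_eq_range] at ha)
  let t : T → G := fun τ => τ.1.2
  choose! l hl using fun x : G => (Finsupp.mem_span_range_iff_exists_finsupp (v := y) (x := x)
    (R := ℤ)).1
  let Bad : T → Set E := fun τ => ⋃ x : span ℤ (t '' Iic τ), (l x).support
  have hBad : ∀ τ, #(Bad τ) < μ τ.1.1 := fun τ => (mk_iUnion_le _).trans_lt (mul_lt_of_lt (hμ _).le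
    ((mk_span _).trans_lt (max_lt (mk_image_le.trans_lt (hp τ)) (hμ _)))
    ((ciSup_le' fun x => (Finset.finite_toSet _).lt_aleph0.le).trans_lt (hμ _)))
  have : ∀ (τ : T) (m : ℕ), ∃ (N : ℕ) (ι : Ioc (0 : ℝ) 1 → E), Injective ι ∧
      ∀ s, (ι s).1.1 = τ ∧ (ι s).1.2.1 = m ∧ (d (ι s)).1 = N ∧ ι s ∉ Bad τ := by
    intro τ m
    let e : O τ.1.1 → E := fun o => ⟨(τ, m, o), o.2⟩
    have he : Injective e := fun a b h => Subtype.ext (congrArg (fun x : E => x.1.2.2) h)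
    have h1 : 𝔠 ≤ #↥((e ⁻¹' Bad τ)ᶜ) := by
      by_contra hc
      have := mk_sum_compl (e ⁻¹' Bad τ)
      rw [hO] at this
      exact (add_lt_of_lt (hμ _).le ((mk_preimage_of_injective _ _ he).trans_lt (hBad τ))
        ((not_le.1 hc).trans_le (le_max_left _ _))).ne this
    obtain ⟨N, hN⟩ := infinite_pigeonhole_card (fun o : ↥((e ⁻¹' Bad τ)ᶜ) => (d (e o)).1) 𝔠 h1
      aleph0_le_continuum (by simpa using lt_cof_ord_power le_rfl (by norm_num : (1 : Cardinal.{0}) < 2))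
    rw [← mk_Ioc_real one_pos] at hN
    obtain ⟨ι⟩ := (Cardinal.le_def _ _).1 hN
    exact ⟨N, fun s => e (ι s).1.1, he.comp (Subtype.val_injective.comp
      (Subtype.val_injective.comp ι.injective)), fun s => ⟨rfl, rfl, (ι s).2, (ι s).1.2⟩⟩
  choose M ι hι hM using this
  let ix : T → J → E := fun τ j => ι τ j.1 j.2
  have hix : ∀ τ, Injective (ix τ) := by
    rintro τ ⟨m, s⟩ ⟨m', s'⟩ h
    obtain rfl : m = m' := (hM τ m s).2.1.symm.trans
      ((congrArg (fun x : E => x.1.2.1) h).trans (hM τ m' s').2.1)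
    exact congrArg _ (hι τ m h)
  refine ⟨T, i1, i2, t, fun τ j => y (ix τ j), M, fun g => span_mono ?_ (hgen g),
    fun τ j => (hM τ j.1 j.2).2.2.1 ▸ (hd _).1, fun τ x hx a ha j => ?_, fun τ => ?_⟩
  · intro g hg
    obtain ⟨k, hk⟩ := mem_iUnion.1 hg
    exact ⟨⟨(k, g), hk⟩, rfl⟩
  · rw [span_union] at hx
    obtain ⟨u, hu, w, hw, rfl⟩ := mem_sup.1 hx
    obtain ⟨lw, h1, rfl⟩ := (Finsupp.mem_span_image_iff_linearCombination ℤ (v := y)
      (s := {e | e.1.1 < τ})).1 (span_mono (by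
        simp only [iUnion_subset_iff]
        rintro σ hσ _ ⟨j, rfl⟩
        exact ⟨_, (hM σ j.1 j.2).1.trans_lt hσ, rfl⟩) hw)
    have e1 : Finsupp.linearCombination ℤ (fun j => y (ix τ j)) a =
        Finsupp.linearCombination ℤ y (a.mapDomain (ix τ)) :=
      (Finsupp.linearCombination_mapDomain (v' := y) ℤ (ix τ) a).symm
    rw [e1, add_assoc, ← map_add] at ha
    have e2 : Finsupp.linearCombination ℤ y (l u) = u := hl u (by
      rw [eq_neg_of_add_eq_zero_left ha, ← Finsupp.range_linearCombination]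
      exact neg_mem ⟨_, rfl⟩)
    rw [← e2, ← map_add] at ha
    have := ind _ ha (ix τ j)
    rw [Finsupp.add_apply, Finsupp.add_apply, Finsupp.mapDomain_apply (hix τ),
      Finsupp.notMem_support_iff.1 fun h => (hM τ j.1 j.2).2.2.2 (mem_iUnion.2 ⟨⟨u, hu⟩, h⟩),
      Finsupp.notMem_support_iff.1 fun h => (hM τ j.1 j.2).1.not_lt (h1 h), zero_add, zero_add,
      (hM τ j.1 j.2).2.2.1] at this
    exact this
  · have := fun m => (hd (ι τ m ⟨1, one_pos, le_rfl⟩)).2.2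
    simp only [(hM τ _ _).1, (hM τ _ _).2.1, (hM τ _ _).2.2.1] at this
    rcases eq_or_ne (n τ.1.1) 0 with h | h
    · exact Or.inr fun m => ((this m).resolve_left fun e => e.1 h).2
    · exact Or.inl ⟨_, h, hnL _ _ τ.2, fun m => ((this m).resolve_right fun e => h e.1).2⟩

end Pool.Agent.H.MP_451483_gt
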