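import Pool.Agent.H.MP_451483_gt.B

set_option autoImplicit false
open Set Function Filter MeasureTheory Topology

namespace Pool.Agent.H.MP_451483_gt

abbrev C := AddCircle (1 : ℝ)

def W : Type := Ioo (0 : ℝ) 1 → C

noncomputable instance : AddCommGroup W := inferInstanceAs (AddCommGroup (Ioo (0 : ℝ) 1 → C))

def S (f : W) : Set ℝ :=
  {ε | 0 ≤ ε ∧ volume (Subtype.val '' {t : Ioo (0 : ℝ) 1 | ε < ‖f t‖}) ≤ ENNReal.ofReal ε}

lemma S_ne (f : W) : (S f).Nonempty :=
  ⟨1, zero_le_one, (measure_mono (Subtype.coe_image_subset _ _)).trans (by simp)⟩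

lemma S_bdd (f : W) : BddBelow (S f) := ⟨0, fun _ h => h.1⟩

lemma S_sup {f : W} {ε : ℝ} (h0 : 0 ≤ ε) (h : ∀ t, ‖f t‖ ≤ ε) : ε ∈ S f :=
  ⟨h0, by simp [fun t => not_lt.2 (h t)]⟩

noncomputable def kf : AddGroupSeminorm W where
  toFun f := sInf (S f)
  map_zero' := le_antisymm (csInf_le (S_bdd _) (S_sup le_rfl fun _ => norm_zero.le))
    (le_csInf (S_ne _) fun _ h => h.1)
  add_le' f g := by
    have : ∀ a ∈ S f, ∀ b ∈ S g, sInf (S (f + g)) ≤ a + b := fun a ha b hb => by
      refine csInf_le (S_bdd _) ⟨add_nonneg ha.1 hb.1, ?_⟩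
      rw [ENNReal.ofReal_add ha.1 hb.1]
      refine (measure_mono ?_).trans ((measure_union_le _ _).trans (add_le_add ha.2 hb.2))
      rw [← image_union]
      refine image_mono fun t ht => ?_
      by_contra hc
      simp only [mem_union, mem_ofPred_eq, not_or, not_lt] at hc
      exact ht.not_ge ((norm_add_le (f t) (g t)).trans (add_le_add hc.1 hc.2))
    exact sub_le_iff_le_add'.1 (le_csInf (S_ne g) fun b hb => sub_le_iff_le_add'.2
      (sub_le_iff_le_add.1 (le_csInf (S_ne f) fun a ha => sub_le_iff_le_add.2 (this a ha b hb))))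
  neg' f := by
    have : ∀ t, ‖(-f) t‖ = ‖f t‖ := fun t => norm_neg (f t)
    simp only [S, this]

noncomputable instance : SeminormedAddCommGroup W := kf.toSeminormedAddCommGroup

lemma n_le {f : W} {ε : ℝ} (h : ε ∈ S f) : ‖f‖ ≤ ε := csInf_le (S_bdd _) h

lemma n_pos {f : W} {a b : ℝ} {c : C} (ha : 0 ≤ a) (hab : a < b) (hb : b ≤ 1) (hc : c ≠ 0)
    (h : ∀ t : Ioo (0 : ℝ) 1, t.1 ∈ Ioo a b → f t = c) : 0 < ‖f‖ := by
  refine (lt_min (norm_pos_iff.2 hc) (sub_pos.2 hab)).trans_le (le_csInf (S_ne _) fun ε hε => ?_)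
  by_cases h1 : ‖c‖ ≤ ε
  · exact (min_le_left _ _).trans h1
  refine (min_le_right _ _).trans ((ENNReal.ofReal_le_ofReal_iff hε.1).1 (le_trans ?_ hε.2))
  rw [← Real.volume_Ioo]
  exact measure_mono fun t ht => ⟨⟨t, ha.trans_lt ht.1, ht.2.trans_le hb⟩,
    (not_le.1 h1).trans_eq (congrArg _ (h _ ht).symm), rfl⟩

noncomputable def cut (r : W) (s : ℝ) : W := fun t => if t.1 < s then r t else 0

lemma cut_cont (r : W) : Continuous (cut r) := by
  refine (LipschitzWith.of_dist_le_mul (K := 1) fun a b => ?_).continuous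
  rw [dist_eq_norm, NNReal.coe_one, one_mul, Real.dist_eq]
  refine n_le ⟨abs_nonneg _, le_trans (measure_mono ?_) (Real.volume_interval (a := b) (b := a)).le⟩
  rintro _ ⟨t, ht, rfl⟩
  by_contra hc
  have : t.1 < a ↔ t.1 < b := by
    rw [mem_uIcc, not_or, not_and_or, not_and_or] at hc
    constructor <;> intro h <;> by_contra h' <;> rcases hc with ⟨h1 | h1, h2 | h2⟩ <;>
      simp only [not_le, not_lt] at * <;> linarith
  have e : (cut r a - cut r b) t = 0 := by
    show cut r a t - cut r b t = 0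
    simp only [cut, this, sub_self]
  exact (mem_ofPred_eq ▸ ht).not_ge (by rw [e, norm_zero]; exact abs_nonneg _)

lemma cut_smul {r : W} {N : ℕ} (h : N • r = 0) (s : ℝ) : N • cut r s = 0 := by
  funext t
  show N • cut r s t = 0
  simp only [cut]
  split_ifs
  · exact congrFun h t
  · exact smul_zero _

lemma circ {a0 a : ℤ} (h : ¬ a0 ∣ a) : ∃ c : C, a0 • c = 0 ∧ a • c ≠ 0 := by
  have h0 : (a : ℝ) ≠ 0 := by rintro e; exact h (by simp [Int.cast_eq_zero.1 e])
  rcases eq_or_ne a0 0 with rfl | h1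
  · refine ⟨((1 / (2 * a) : ℝ) : C), zero_smul _ _, fun e => ?_⟩
    rw [← AddCircle.coe_zsmul, AddCircle.coe_eq_zero_iff] at e
    obtain ⟨n, e⟩ := e
    simp only [zsmul_eq_mul] at e
    field_simp at e
    have : n * 2 = 1 := by exact_mod_cast e
    omega
  · have h2 : (a0 : ℝ) ≠ 0 := Int.cast_ne_zero.2 h1
    refine ⟨((1 / a0 : ℝ) : C), ?_, fun e => ?_⟩
    · rw [← AddCircle.coe_zsmul, AddCircle.coe_eq_zero_iff]
      exact ⟨1, by simp [h2]⟩
    · rw [← AddCircle.coe_zsmul, AddCircle.coe_eq_zero_iff] at e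
      obtain ⟨n, e⟩ := e
      simp only [zsmul_eq_mul] at e
      field_simp at e
      exact h ⟨n, by rw [mul_comm]; exact_mod_cast e.symm⟩

lemma rnd (N n : ℕ) (x : C) :
    ∃ y : C, N • y = 0 ∧ (N = 0 ∨ n < N ∨ N • x = 0 → ‖x - y‖ ≤ 1 / (n + 1 : ℝ)) := by
  by_cases h : N • x = 0
  · exact ⟨x, h, fun _ => by rw [sub_self, norm_zero]; positivity⟩
  have h0 : N ≠ 0 := by rintro rfl; exact h (zero_smul _ _)
  have h1 : (0 : ℝ) < N := by positivity
  induction x using QuotientAddGroup.induction_on with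
  | H a =>
  refine ⟨((⌊N * a⌋ / N : ℝ) : C), ?_, fun hn => ?_⟩
  · rw [← AddCircle.coe_nsmul, AddCircle.coe_eq_zero_iff]
    exact ⟨⌊N * a⌋, by simp; field_simp⟩
  · have h2 : (n + 1 : ℝ) ≤ N := by exact_mod_cast (hn.resolve_left h0).resolve_right h
    refine (QuotientAddGroup.norm_mk_le_norm (m := a - ⌊N * a⌋ / N)).trans ?_
    have e : a - ⌊N * a⌋ / N = Int.fract (N * a) / N := by rw [Int.fract]; field_simp
    rw [e, Real.norm_of_nonneg (div_nonneg (Int.fract_nonneg _) h1.le)]
    gcongr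
    exact (Int.fract_lt_one _).le

def Good (v : W) (r : ℕ → W) : Prop :=
  ∀ ε > 0, ∃ K, ∀ k ≥ K, ∀ t, ‖v t - ∑ n ∈ Finset.range k, r n t‖ ≤ ε

lemma good_ex {M : ℕ → ℕ} {v : W} (init : ℕ → W) (n0 : ℕ) (hi : ∀ k, M k • init k = 0)
    (h : (∃ N, N • v = 0 ∧ ∀ n, M n = N) ∨ ∀ n, M n = 0 ∨ n < M n) :
    ∃ r : ℕ → W, (∀ n, M n • r n = 0) ∧ (∀ k < n0, r k = init k) ∧ Good v r := by
  choose ρ h1 h2 using fun n x => rnd (M n) n x
  let F : ℕ → W → W := fun n s => if n < n0 then init n else fun t => ρ n (v t - s t)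
  let s : ℕ → W := fun n => Nat.rec 0 (fun n s => s + F n s) n
  have hF : ∀ n s, M n • F n s = 0 := fun n s => by
    simp only [F]
    split_ifs
    · exact hi n
    · exact funext fun t => h1 _ _
  have hs : ∀ k t, ∑ n ∈ Finset.range k, F n (s n) t = s k t := fun k t => by
    induction k with
    | zero => rfl
    | succ k ih => rw [Finset.sum_range_succ, ih]; rfl
  refine ⟨fun n => F n (s n), fun n => hF _ _, fun k hk => if_pos hk, fun ε hε => ?_⟩
  obtain ⟨K, hK⟩ := exists_nat_one_div_lt hε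
  refine ⟨max K n0 + 1, fun k hk t => ?_⟩
  obtain ⟨k, rfl⟩ : ∃ j, k = j + 1 := ⟨k - 1, by omega⟩
  have e : F k (s k) t = ρ k (v t - s k t) := by
    simp only [F, if_neg (show ¬ k < n0 by omega)]
  rw [Finset.sum_range_succ, hs]
  beta_reduce
  rw [e, ← sub_sub]
  refine (h2 _ _ ?_).trans (le_trans ?_ hK.le)
  · rcases h with ⟨N, hv, hN⟩ | h
    · have : ∀ n, N • s n = 0 := fun n => by
        induction n with
        | zero => exact smul_zero _
        | succ n ih => exact (smul_add N (s n) _).trans (by rw [ih, ← hN n, hF, add_zero])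
      refine Or.inr (Or.inr ?_)
      rw [hN, smul_sub]
      exact sub_eq_zero.2 ((congrFun hv t).trans (congrFun (this k) t).symm)
    · exact (h k).imp_right Or.inl
  · gcongr
    omega

variable {G : Type} [AddCommGroup G]

open Classical in
noncomputable def Y (b : J → G) (n : ℕ) (x : ℝ) : G :=
  if h : 0 < x then b (n, ⟨min x 1, lt_min h one_pos, min_le_right _ _⟩) else 0

open Classical in
noncomputable def γ (t : G) (b : J → G) (u : ℝ) : G :=
  if u < 1 then ∑ n ∈ Finset.range ⌈(1 - u)⁻¹ - 1⌉₊, Y b n ((1 - u)⁻¹ - 1 - n) else t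

lemma γ_cont {t : G} {b : J → G} (φ : G →+ W) {r : ℕ → W} (hr : Good (φ t) r)
    (hb : ∀ j, φ (b j) = cut (r j.1) j.2) : Continuous fun u => φ (γ t b u) := by
  have hY : ∀ n x, φ (Y b n x) = cut (r n) x := fun n x => by
    rw [Y]
    split_ifs with h
    · rw [hb]
      funext t
      simp [cut, t.2.2]
    · funext t
      simp only [map_zero, cut, if_neg (show ¬ t.1 < x by linarith [t.2.1])]
      rfl
  let F : ℝ → W := fun x => ∑ n ∈ Finset.range ⌈x⌉₊, cut (r n) (x - n)
  have e : (fun u => φ (γ t b u)) = fun u => if u < 1 then F ((1 - u)⁻¹ - 1) else φ t := by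
    funext u
    simp only [γ, F]
    split_ifs <;> simp only [map_sum, hY]
  have cF : Continuous F := by
    refine continuous_iff_continuousAt.2 fun x => ContinuousAt.congr (f := fun y =>
      ∑ n ∈ Finset.range (⌈x⌉₊ + 1), cut (r n) (y - n)) (Continuous.continuousAt
        (continuous_finsetSum _ fun n _ => (cut_cont _).comp (by fun_prop))) ?_
    filter_upwards [Iio_mem_nhds (show x < ⌈x⌉₊ + 1 by linarith [Nat.le_ceil x])] with y hy
    refine (Finset.sum_subset (Finset.range_mono (Nat.ceil_le.2 (by push_cast; exact hy.le)))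
      fun n _ hn => funext fun t => if_neg ?_).symm
    have : y ≤ n := Nat.ceil_le.1 (by simpa using hn)
    linarith [t.2.1]
  have lF : Tendsto F atTop (𝓝 (φ t)) := by
    refine Metric.tendsto_atTop.2 fun ε hε => ?_
    obtain ⟨K, hK⟩ := hr (ε / 2) (by positivity)
    refine ⟨K + 1, fun x hx => ?_⟩
    rw [dist_comm, dist_eq_norm]
    refine (n_le (S_sup (by positivity) fun s => ?_)).trans_lt (half_lt_self hε)
    have : F x s = ∑ n ∈ Finset.range ⌈x - s⌉₊, r n s := by
      refine (Finset.sum_apply s _ _).trans ((Finset.sum_subset (Finset.range_mono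
        (Nat.ceil_mono (sub_le_self x s.2.1.le))) fun n _ hn => if_neg ?_).symm.trans
        (Finset.sum_congr rfl fun n hn => if_pos ?_))
      · have : x - s ≤ n := Nat.ceil_le.1 (by simpa using hn)
        linarith
      · have := Nat.lt_ceil.1 (Finset.mem_range.1 hn)
        linarith
    show ‖φ t s - F x s‖ ≤ _
    rw [this]
    exact hK _ (Nat.cast_le.1 ((show (K : ℝ) ≤ x - s by linarith [s.2.2]).trans (Nat.le_ceil _))) s
  rw [e]
  refine continuous_iff_continuousAt.2 fun u => ?_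
  rcases lt_trichotomy u 1 with h | rfl | h
  · refine ContinuousAt.congr (f := fun u => F ((1 - u)⁻¹ - 1)) (cF.continuousAt.comp
      (by fun_prop (disch := exact (sub_pos.2 h).ne'))) ?_
    filter_upwards [Iio_mem_nhds h] with y hy using (if_pos hy).symm
  · refine continuousAt_iff_continuous_left_right.2 ⟨continuousWithinAt_Iio_iff_Iic.1 ?_, ?_⟩
    · rw [ContinuousWithinAt, if_neg (lt_irrefl _)]
      refine Tendsto.congr' (eventually_nhdsWithin_of_forall fun y hy => (if_pos hy).symm)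
        (lF.comp (tendsto_atTop_add_const_right _ (-1) (tendsto_inv_nhdsGT_zero.comp ?_)))
      exact tendsto_nhdsWithin_iff.2 ⟨by
        simpa using (tendsto_const_nhds (x := (1 : ℝ))).sub
          (tendsto_nhdsWithin_of_tendsto_nhds (tendsto_id (x := 𝓝 (1 : ℝ)))),
        eventually_nhdsWithin_of_forall fun y hy => mem_Ioi.2 (sub_pos.2 hy)⟩
    · exact continuousWithinAt_const.congr (fun y hy => if_neg (not_lt.2 hy)) (if_neg (lt_irrefl _))
  · refine (continuousAt_const (y := φ t)).congr ?_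
    filter_upwards [Ioi_mem_nhds h] with y hy using (if_neg (not_lt.2 hy.le)).symm

end Pool.Agent.H.MP_451483_gt
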