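import Pool.Agent.H.MP_451483_gt.C

set_option autoImplicit false
open Set Function Filter Topology Submodule

namespace Pool.Agent.H.MP_451483_gt

variable {G T : Type} [AddCommGroup G] [LinearOrder T]

lemma span_chain {X : Type} [AddCommGroup X] (g : T → Set X) (A : Set T) {x : X}
    (h : x ∈ span ℤ (⋃ σ ∈ A, g σ)) : x = 0 ∨ ∃ σ ∈ A, x ∈ span ℤ (⋃ ρ ∈ Iic σ, g ρ) := by
  have mono : ∀ {σ σ' : T}, σ ≤ σ' → span ℤ (⋃ ρ ∈ Iic σ, g ρ) ≤ span ℤ (⋃ ρ ∈ Iic σ', g ρ) :=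
    fun h => span_mono (biUnion_subset_biUnion_left (Iic_subset_Iic.2 h))
  induction h using span_induction with
  | mem x hx =>
    obtain ⟨σ, h1, h2⟩ := mem_iUnion₂.1 hx
    exact Or.inr ⟨σ, h1, subset_span (mem_biUnion (le_refl σ) h2)⟩
  | zero => exact Or.inl rfl
  | add x y _ _ hx hy =>
    rcases hx with rfl | ⟨σ, h1, h2⟩
    · rwa [zero_add]
    rcases hy with rfl | ⟨σ', h3, h4⟩
    · exact Or.inr ⟨σ, h1, by rwa [add_zero]⟩
    rcases le_total σ σ' with h | h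
    · exact Or.inr ⟨σ', h3, add_mem (mono h h2) h4⟩
    · exact Or.inr ⟨σ, h1, add_mem h2 (mono h h4)⟩
  | smul a x _ hx =>
    exact hx.imp (fun h => by rw [h, smul_zero]) fun ⟨σ, h1, h2⟩ => ⟨σ, h1, smul_mem _ a h2⟩

def Fn (Γ : Submodule ℤ (G × W)) : Prop := ∀ w, ((0 : G), w) ∈ Γ → w = 0

lemma Fn.ext {Γ : Submodule ℤ (G × W)} (h : Fn Γ) (t : G) : ∃ v, Fn (Γ ⊔ span ℤ {(t, v)}) := by
  let I : Ideal ℤ := (Γ.map (LinearMap.fst ℤ G W)).comap (LinearMap.toSpanSingleton ℤ G t)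
  obtain ⟨⟨x, w0⟩, h1, h2⟩ := IsPrincipal.generator_mem I
  obtain rfl : x = IsPrincipal.generator I • t := h2
  obtain ⟨v, hv⟩ : ∃ v : W, IsPrincipal.generator I • v = w0 := by
    rcases eq_or_ne (IsPrincipal.generator I) 0 with e | e
    · exact ⟨0, by rw [smul_zero, h w0 (by simpa [e] using h1)]⟩
    · exact ⟨fun s => DivisibleBy.div (w0 s) (IsPrincipal.generator I),
        funext fun s => DivisibleBy.div_cancel _ e⟩
  refine ⟨v, fun w hw => ?_⟩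
  obtain ⟨y, hy, z, hz, e⟩ := mem_sup.1 hw
  obtain ⟨a, rfl⟩ := mem_span_singleton.1 hz
  obtain ⟨c, rfl⟩ := (IsPrincipal.mem_iff_generator_dvd I (x := a)).1
    ⟨-y, neg_mem hy, neg_eq_of_add_eq_zero_right (congrArg Prod.fst e)⟩
  refine h w (e ▸ add_mem hy ?_)
  rw [mul_comm, mul_smul]
  refine smul_mem _ c ?_
  rw [Prod.smul_mk, hv]
  exact h1

variable (t : T → G) (b : T → J → G) (M : T → ℕ → ℕ)

def gn (σ : T) (p : W × (ℕ → W)) : Set (G × W) :=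
  {(t σ, p.1)} ∪ range fun j : J => (b σ j, cut (p.2 j.1) j.2)

def Valid (τ : T) (Γ : Submodule ℤ (G × W)) (p : W × (ℕ → W)) : Prop :=
  Fn (Γ ⊔ span ℤ {(t τ, p.1)}) ∧ (∀ n, M τ n • p.2 n = 0) ∧ Good p.1 p.2

variable {t b M}

lemma lc_zero {X : Type} [AddCommGroup X] {y : J → X} {m : ℕ → ℕ} (h : ∀ j : J, m j.1 • y j = 0)
    {a : ℤ} {j : J} (ha : (m j.1 : ℤ) ∣ a) : a • y j = 0 := by
  obtain ⟨c, rfl⟩ := ha
  rw [mul_comm, mul_smul, natCast_zsmul, h, smul_zero]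

variable [WellFoundedLT T] (h1 : ∀ g, g ∈ span ℤ (range t)) (h2 : ∀ τ j, M τ j.1 • b τ j = 0)
  (h3 : ∀ τ, ∀ x ∈ span ℤ (t '' Iic τ ∪ ⋃ σ < τ, range (b σ)), ∀ a : J →₀ ℤ,
    x + Finsupp.linearCombination ℤ (b τ) a = 0 → ∀ j, (M τ j.1 : ℤ) ∣ a j)
  (h4 : ∀ τ, (∃ N, N ≠ 0 ∧ N • t τ = 0 ∧ ∀ n, M τ n = N) ∨ ∀ n, M τ n = 0 ∨ n < M τ n)

include h1 h2 h3 h4

theorem ext (sp : T → W × (ℕ → W)) : ∃ (d : T → W × (ℕ → W)) (φ : G →+ W),
    (∀ τ, φ (t τ) = (d τ).1 ∧ Good (d τ).1 (d τ).2 ∧ ∀ j, φ (b τ j) = cut ((d τ).2 j.1) j.2) ∧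
    ∀ τ, Valid t M τ (span ℤ (⋃ σ ∈ Iio τ, gn t b σ (d σ))) (sp τ) → d τ = sp τ := by
  obtain ⟨d, hd⟩ := rec_choice (α := T) (β := W × (ℕ → W)) (fun τ prev p =>
    (Fn (span ℤ (⋃ σ : Iio τ, gn t b σ (prev σ))) →
      Valid t M τ (span ℤ (⋃ σ : Iio τ, gn t b σ (prev σ))) p) ∧
    (Valid t M τ (span ℤ (⋃ σ : Iio τ, gn t b σ (prev σ))) (sp τ) → p = sp τ)) fun τ prev => by
      by_cases h : Valid t M τ (span ℤ (⋃ σ : Iio τ, gn t b σ (prev σ))) (sp τ)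
      · exact ⟨_, fun _ => h, fun _ => rfl⟩
      by_cases h' : Fn (span ℤ (⋃ σ : Iio τ, gn t b σ (prev σ)))
      swap
      · exact ⟨0, fun e => absurd e h', fun e => absurd e h⟩
      obtain ⟨v, hv⟩ := h'.ext (t τ)
      obtain ⟨r, r1, -, r2⟩ := good_ex (M := M τ) (v := v) 0 0 (fun _ => smul_zero _)
        ((h4 τ).imp_left fun ⟨N, _, a, c⟩ => ⟨N, hv _ (mem_sup_right (mem_span_singleton.2
          ⟨N, by rw [natCast_zsmul, Prod.smul_mk, a]⟩)), c⟩)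
      exact ⟨(v, r), fun _ => ⟨hv, r1, r2⟩, fun e => absurd e h⟩
  simp only [← biUnion_eq_iUnion _ fun σ _ => gn t b σ (d σ)] at hd
  have key : ∀ τ, Fn (span ℤ (⋃ σ ∈ Iio τ, gn t b σ (d σ))) →
      Fn (span ℤ (⋃ σ ∈ Iic τ, gn t b σ (d σ))) := fun τ hτ w hw => by
    obtain ⟨a1, a2, -⟩ := (hd τ).1 hτ
    rw [← Iio_insert, biUnion_insert, union_comm, gn, ← union_assoc, span_union, span_union] at hw
    obtain ⟨y, hy, z, hz, e⟩ := mem_sup.1 hw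
    obtain ⟨a, rfl⟩ := (Finsupp.mem_span_range_iff_exists_finsupp).1 hz
    have hy' : y.1 ∈ span ℤ (t '' Iic τ ∪ ⋃ σ < τ, range (b σ)) := by
      rw [← span_union] at hy
      refine (span_le (p := (span ℤ _).comap (LinearMap.fst ℤ G W))).2 ?_ hy
      rintro p (hp | rfl)
      · obtain ⟨σ, hσ, rfl | ⟨j, rfl⟩⟩ := mem_iUnion₂.1 hp
        · exact subset_span (Or.inl ⟨σ, le_of_lt hσ, rfl⟩)
        · exact subset_span (Or.inr (mem_iUnion₂.2 ⟨σ, hσ, j, rfl⟩))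
      · exact subset_span (Or.inl ⟨τ, le_refl τ, rfl⟩)
    have := h3 τ _ hy' a (by
      simpa [Finsupp.linearCombination_apply, Finsupp.sum, Prod.fst_sum] using congrArg Prod.fst e)
    rw [Finsupp.sum, Finset.sum_eq_zero fun j _ => lc_zero
      (y := fun j : J => (b τ j, cut ((d τ).2 j.1) j.2)) (m := M τ) (fun j => by
        rw [Prod.smul_mk, h2, cut_smul (a2 _)]; rfl) (this j), add_zero] at e
    exact a1 w (e ▸ hy)
  have fn : ∀ τ, Fn (span ℤ (⋃ σ ∈ Iio τ, gn t b σ (d σ))) := fun τ => by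
    induction τ using WellFoundedLT.induction with
    | _ τ ih =>
    intro w hw
    rcases span_chain _ _ hw with e | ⟨σ, hσ, e⟩
    · exact congrArg Prod.snd e
    · exact key σ (ih σ hσ) w e
  let Γ := span ℤ (⋃ σ ∈ univ, gn t b σ (d σ))
  have fa : ∀ {g w w'}, (g, w) ∈ Γ → (g, w') ∈ Γ → w = w' := fun {g w w'} a c => by
    have := sub_mem a c
    rw [Prod.mk_sub_mk, sub_self] at this
    rcases span_chain _ _ this with e | ⟨σ, -, e⟩
    · exact sub_eq_zero.1 (congrArg Prod.snd e)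
    · exact sub_eq_zero.1 (key σ (fn σ) _ e)
  have m1 : ∀ τ, (t τ, (d τ).1) ∈ Γ := fun τ => subset_span (mem_biUnion (mem_univ τ) (Or.inl rfl))
  have tot : ∀ g, ∃ w, (g, w) ∈ Γ := fun g => by
    obtain ⟨⟨_, w⟩, a, rfl⟩ := (span_le (p := Γ.map (LinearMap.fst ℤ G W))).2
      (by rintro _ ⟨τ, rfl⟩; exact ⟨_, m1 τ, rfl⟩) (h1 g)
    exact ⟨w, a⟩
  choose f hf using tot
  exact ⟨d, AddMonoidHom.mk' f fun x y => fa (hf _) (add_mem (hf x) (hf y)), fun τ =>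
    ⟨fa (hf _) (m1 τ), ((hd τ).1 (fn τ)).2.2, fun j => fa (hf _)
      (subset_span (mem_biUnion (mem_univ τ) (Or.inr ⟨j, rfl⟩)))⟩, fun τ => (hd τ).2⟩

theorem sep {x : G} (hx : x ≠ 0) : ∃ φ : G →+ W, 0 < ‖φ x‖ ∧
    ∀ τ, ∃ r, Good (φ (t τ)) r ∧ ∀ j : J, φ (b τ j) = cut (r j.1) j.2 := by
  classical
  let g : T → Set G := fun σ => {t σ} ∪ range (b σ)
  obtain ⟨τ, hτ, hmin⟩ := (wellFounded_lt (α := T)).has_min {τ | x ∈ span ℤ (⋃ ρ ∈ Iic τ, g ρ)} (by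
    obtain ⟨σ, -, h⟩ := (span_chain g univ (span_mono (by
      rintro _ ⟨σ, rfl⟩; exact mem_biUnion (mem_univ σ) (Or.inl rfl)) (h1 x))).resolve_left hx
    exact ⟨σ, h⟩)
  let K := span ℤ (⋃ ρ ∈ Iio τ, g ρ)
  have hK : x ∉ K := fun h => by
    obtain ⟨σ, a, c⟩ := (span_chain g _ h).resolve_left hx
    exact hmin σ c a
  rw [mem_ofPred_eq, ← Iio_insert, biUnion_insert, union_comm, ← union_assoc, span_union,
    span_union] at hτ
  obtain ⟨y, hy, z, hz, rfl⟩ := mem_sup.1 hτ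
  obtain ⟨c, rfl⟩ := (Finsupp.mem_span_range_iff_exists_finsupp).1 hz
  obtain ⟨k, hk, z, hz, rfl⟩ := mem_sup.1 hy
  obtain ⟨a, rfl⟩ := mem_span_singleton.1 hz
  have main : ∀ (v : W) (r : ℕ → W), (∀ a : ℤ, a • t τ ∈ K → a • v = 0) → (∀ n, M τ n • r n = 0) →
      Good v r → ∃ φ : G →+ W, φ (k + a • t τ + c.sum fun j a => a • b τ j) =
        a • v + ∑ j ∈ c.support, c j • cut (r j.1) j.2 ∧
      ∀ τ, ∃ r, Good (φ (t τ)) r ∧ ∀ j : J, φ (b τ j) = cut (r j.1) j.2 := by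
    intro v r hv hr hg
    obtain ⟨d, φ, e1, e2⟩ := ext h1 h2 h3 h4 (Pi.single τ (v, r))
    have c0 : ∀ s, cut 0 s = 0 := fun s => funext fun _ => ite_self _
    have z : ∀ σ, (∀ ρ < σ, d ρ = 0) → ∀ p ∈ span ℤ (⋃ ρ ∈ Iio σ, gn t b ρ (d ρ)),
        p.1 ∈ span ℤ (⋃ ρ ∈ Iio σ, g ρ) ∧ p.2 = 0 := fun σ h p hp => by
      refine (span_le (p := (span ℤ (⋃ ρ ∈ Iio σ, g ρ)).prod ⊥)).2 (fun p hp => ?_) hp
      obtain ⟨ρ, hρ, rfl | ⟨j, rfl⟩⟩ := mem_iUnion₂.1 hp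
      · exact ⟨subset_span (mem_biUnion hρ (Or.inl rfl)), congrArg Prod.fst (h ρ hρ)⟩
      · exact ⟨subset_span (mem_biUnion hρ (Or.inr ⟨j, rfl⟩)), by rw [h ρ hρ]; exact c0 _⟩
    have d0 : ∀ σ < τ, d σ = 0 := fun σ => by
      induction σ using WellFoundedLT.induction with
      | _ σ ih =>
      intro hσ
      have := e2 σ
      rw [Pi.single_eq_of_ne hσ.ne] at this
      refine this ⟨fun w hw => ?_, fun _ => smul_zero _, fun ε hε => ⟨0, fun k _ s => ?_⟩⟩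
      · obtain ⟨y, hy, z', hz, e⟩ := mem_sup.1 hw
        obtain ⟨a, rfl⟩ := mem_span_singleton.1 hz
        simpa [(z σ (fun ρ h => ih ρ h (h.trans hσ)) y hy).2] using (congrArg Prod.snd e).symm
      · show ‖(0 : C) - ∑ n ∈ Finset.range k, 0‖ ≤ ε
        simpa using hε.le
    have dτ : d τ = (v, r) := by
      have := e2 τ
      rw [Pi.single_eq_same] at this
      refine this ⟨fun w hw => ?_, hr, hg⟩
      obtain ⟨y, hy, z', hz, e⟩ := mem_sup.1 hw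
      obtain ⟨a, rfl⟩ := mem_span_singleton.1 hz
      have e' : -y.1 = a • t τ := neg_eq_of_add_eq_zero_right (congrArg Prod.fst e)
      have := hv a (e' ▸ neg_mem (z τ d0 y hy).1)
      simpa [(z τ d0 y hy).2, this] using (congrArg Prod.snd e).symm
    refine ⟨φ, ?_, fun σ => ⟨_, (e1 σ).1 ▸ (e1 σ).2.1, (e1 σ).2.2⟩⟩
    have : φ k = 0 := by
      refine (span_le (p := LinearMap.ker φ.toIntLinearMap)).2 (fun p hp => ?_) hk
      obtain ⟨ρ, hρ, rfl | ⟨j, rfl⟩⟩ := mem_iUnion₂.1 hp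
      · exact (e1 ρ).1.trans (congrArg Prod.fst (d0 ρ hρ))
      · exact ((e1 ρ).2.2 j).trans (by rw [d0 ρ hρ]; exact c0 _)
    simp only [map_add, this, zero_add, map_zsmul, Finsupp.sum, map_sum, e1, dτ]
  by_cases hc : ∀ j, (M τ j.1 : ℤ) ∣ c j
  · let I : Ideal ℤ := K.comap (LinearMap.toSpanSingleton ℤ G (t τ))
    have : a ∉ I := fun h => hK (by
      rw [Finsupp.sum, Finset.sum_eq_zero fun j _ => lc_zero (h2 τ) (hc j), add_zero]
      exact add_mem hk h)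
    obtain ⟨u, u1, u2⟩ := circ (mt (IsPrincipal.mem_iff_generator_dvd I).2 this)
    have hv : ∀ a : ℤ, a • t τ ∈ K → a • (show W from fun _ => u) = 0 := fun a h => by
      obtain ⟨c, rfl⟩ := (IsPrincipal.mem_iff_generator_dvd I (x := a)).1 h
      exact funext fun _ => show (_ * c) • u = 0 by rw [mul_comm, mul_smul, u1, smul_zero]
    obtain ⟨r, r1, -, r2⟩ := good_ex (M := M τ) (v := fun _ => u) 0 0 (fun _ => smul_zero _)
      ((h4 τ).imp_left fun ⟨N, _, a, c⟩ => ⟨N, (natCast_zsmul _ _).symm.trans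
        (hv N (by rw [natCast_zsmul, a]; exact zero_mem _)), c⟩)
    obtain ⟨φ, e1, e2⟩ := main _ r hv r1 r2
    refine ⟨φ, n_pos le_rfl one_pos le_rfl u2 fun s _ => ?_, e2⟩
    rw [e1, Finset.sum_eq_zero fun j _ => lc_zero (y := fun j : J => cut (r j.1) j.2)
      (fun j => cut_smul (r1 _) _) (hc j), add_zero]
    rfl
  · push Not at hc
    obtain ⟨j0, hj, hmax⟩ := Finset.exists_max_image (c.support.filter fun j => ¬ (M τ j.1 : ℤ) ∣ c j)
      toLex (hc.imp fun j h => Finset.mem_filter.2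
        ⟨Finsupp.mem_support_iff.2 fun e => h (e ▸ dvd_zero _), h⟩)
    obtain ⟨u, u1, u2⟩ := circ (Finset.mem_filter.1 hj).2
    obtain ⟨r, r1, r2, r3⟩ := good_ex (M := M τ) (v := 0) (Pi.single j0.1 fun _ => u) (j0.1 + 1)
      (fun k => by
        rcases eq_or_ne k j0.1 with rfl | e
        · rw [Pi.single_eq_same]; exact funext fun _ => (natCast_zsmul _ _).symm.trans u1
        · rw [Pi.single_eq_of_ne e, smul_zero])
      ((h4 τ).imp_left fun ⟨N, _, _, c⟩ => ⟨N, smul_zero _, c⟩)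
    obtain ⟨φ, e1, e2⟩ := main 0 r (fun _ _ => smul_zero _) r1 r3
    have : ∀ᶠ s : ℝ in 𝓝[<] (j0.2 : ℝ), (∀ j ∈ c.support, (j.2 : ℝ) < j0.2 → (j.2 : ℝ) < s) ∧
        0 < s ∧ s < (j0.2 : ℝ) :=
      ((eventually_all_finset _).2 fun j _ => eventually_imp_distrib_left.2 fun h =>
        mem_nhdsWithin_of_mem_nhds (Ioi_mem_nhds h)).and (Filter.Eventually.and
        (mem_nhdsWithin_of_mem_nhds (Ioi_mem_nhds j0.2.2.1)) self_mem_nhdsWithin)
    obtain ⟨s0, a1, a2, a3⟩ := this.exists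
    refine ⟨φ, n_pos a2.le a3 j0.2.2.2 u2 fun s hs => ?_, e2⟩
    rw [e1, smul_zero, zero_add]
    refine (Finset.sum_apply s _ _).trans ((Finset.sum_eq_single_of_mem j0
      (Finset.mem_filter.1 hj).1 fun j h1 h2 => ?_).trans ?_)
    · by_cases h : (M τ j.1 : ℤ) ∣ c j
      · exact congrFun (lc_zero (y := fun j : J => cut (r j.1) j.2) (fun j => cut_smul (r1 _) _) h) s
      suffices cut (r j.1) j.2 s = 0 from (congrArg (c j • ·) this).trans (smul_zero _)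
      rcases Prod.Lex.toLex_lt_toLex.1 ((hmax j (Finset.mem_filter.2 ⟨h1, h⟩)).lt_of_ne
        (toLex.injective.ne h2)) with e | ⟨-, e⟩
      · rw [r2 _ (by omega), Pi.single_eq_of_ne e.ne]
        exact ite_self _
      · exact if_neg (not_lt.2 ((a1 j h1 e).trans hs.1).le)
    · show c j0 • cut (r j0.1) j0.2 s = _
      rw [r2 _ (by omega), Pi.single_eq_same, cut, if_pos hs.2]

theorem top : ∃ τ : TopologicalSpace G, @IsTopologicalAddGroup G τ _ ∧ @T2Space G τ ∧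
    @PathConnectedSpace G τ := by
  let Φ := {φ : G →+ W // ∀ τ, ∃ r, Good (φ (t τ)) r ∧ ∀ j : J, φ (b τ j) = cut (r j.1) j.2}
  letI : TopologicalSpace G := ⨅ φ : Φ, TopologicalSpace.induced φ.1 inferInstance
  have i1 : IsTopologicalAddGroup G :=
    topologicalAddGroup_iInf fun φ => topologicalAddGroup_induced φ.1
  refine ⟨_, i1, IsTopologicalAddGroup.t2Space_of_zero_sep fun x hx => ?_, ⟨0⟩, ?_⟩
  · obtain ⟨φ, a, c⟩ := sep h1 h2 h3 h4 hx
    have : Continuous φ := continuous_iInf_dom (i := (⟨φ, c⟩ : Φ)) continuous_induced_dom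
    exact ⟨{y | ‖φ y‖ < ‖φ x‖}, (isOpen_lt this.norm continuous_const).mem_nhds (by simpa using a),
      fun h => lt_irrefl ‖φ x‖ h⟩
  · have : ∀ g : G, Joined 0 g := fun g => by
      refine (span_le (p := (AddSubgroup.pathComponentZero G).toIntSubmodule)).2 ?_ (h1 g)
      rintro _ ⟨τ, rfl⟩
      refine ⟨Path.ofLine (f := γ (t τ) (b τ)) (Continuous.continuousOn
        (continuous_iInf_rng.2 fun φ => continuous_induced_rng.2 ?_)) (by simp [γ]) (by simp [γ])⟩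
      obtain ⟨r, a, c⟩ := φ.2 τ
      exact γ_cont φ.1 a c
    exact fun x y => (this x).symm.trans (this y)

end Pool.Agent.H.MP_451483_gt
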